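import Pool.Agent.Lead.Uni1

set_option autoImplicit false

namespace Pool.Agent.Results.MP_56ca39_gt.Q12

open Pool.Agent.TEx

theorem result : ∃ κ : Cardinal.{0}, Cardinal.aleph0 ≤ κ ∧
    ∀ (U : Type) [TopologicalSpace U] [CompactSpace U] [T2Space U], WeightLE U κ →
      ∃ (K : Type) (_ : TopologicalSpace K), CompactSpace K ∧ T2Space K ∧ WeightLE K κ ∧
        ¬ TEmbeds K U :=
  ⟨Cardinal.continuum, Cardinal.aleph0_le_continuum, fun U _ _ _ h => no_universal U h⟩

end Pool.Agent.Results.MP_56ca39_gt.Q12
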